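import Pool.Agent.MP_3827f0_nt.H93.Bridge

set_option autoImplicit false

namespace Pool.Agent.Results.MP_3827f0_nt.Normal

open MP_3827f0_nt.H93

/-- For every `d ≥ 2` there is a bound `B` on the number of common preperiodic points of any two
complex rational functions of degree `d` with different Julia sets. -/
theorem result (d : ℕ) (hd : 2 ≤ d) :
    ∃ B : ℕ, ∀ f g : RatFunc ℂ, deg f = d → deg g = d → julia (act f) ≠ julia (act g) →
      (preper (act f) ∩ preper (act g)).encard ≤ (B : ℕ∞) := by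
  obtain ⟨B, hB⟩ := MP_3827f0_nt.H92.uniform_bound hd
  refine ⟨B, fun f g hf hg hne => ?_⟩
  obtain ⟨F, h1, h2, h3⟩ := exists_lift f hf
  obtain ⟨F', h1', h2', h3'⟩ := exists_lift g hg
  obtain ⟨G, h⟩ := MP_3827f0_nt.H92.exists_dyn MP_3827f0_nt.H92.place_nv_complex hd h1 h2
  obtain ⟨G', h'⟩ := MP_3827f0_nt.H92.exists_dyn MP_3827f0_nt.H92.place_nv_complex hd h1' h2'
  rw [julia_eq h h3, julia_eq h' h3'] at hne
  exact (Set.encard_le_encard
    (Set.inter_subset_inter (preper_subset _) (preper_subset _))).trans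
    (hB _ _ F F' h1 h2 h3 h1' h2' h3' hne)

end Pool.Agent.Results.MP_3827f0_nt.Normal
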